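import Pool.Agent.Y285.HH.Bal2

/-!
# Failure of Hunt's hypothesis (H) for real Lévy processes with jumps of arbitrarily large variation

For every gauge `φ` with `φ x / x ^ 2 → ∞` at `0` there is a real Lévy process without Gaussian part
whose Lévy measure `μ` satisfies `∫ φ dμ = ∞` (and `∫ min 1 (|x| ^ β) μ(dx) = ∞` for every
`β < 2`), and for which Hunt's hypothesis (H) fails.

The process is `X t = t + ∑ m, e (m + 1) * ((N⁺ m t - r⁺ m * t) - (N⁻ m t - r⁻ m * t))` with
independent Poisson processes `N⁺ m`, `N⁻ m` of rates `r⁺ m`, `r⁻ m`, where `e n` is an integer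
multiple of `e (n + 1)` and `e (m + 1) ^ 2 * r⁻ m = 2 ^ (- c m)` with a sequence `c m` which is
chosen *before* the jump size `e (m + 1)`. As the jumps of size `e (m + 1)` have a negligible
variance (and not a negligible variation), Kolmogorov's inequality replaces the counting of the
jumps. The net speeds `v n`, given by `v n - v (n + 1) = e (n + 1) * (r⁺ n - r⁻ n)` and `v 0 = 1`,
decrease rapidly to `0`. Modulo `e n` the process moves with the nearly constant speed `v n`. The
closed set `A` of all `x` such that, for every `n`, `x` mod `e n` lies in a suitable window is thin,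
as the process cannot return to `A` at small times, and a Fubini argument shows that it is not
polar.
-/

set_option autoImplicit false

open MeasureTheory ProbabilityTheory Set Filter Topology
open scoped NNReal ENNReal

namespace Pool.Agent.Results.MP_ee1e43_pr.EveryGauge

open Pool.Agent.W850.HT Pool.Agent.Y285.HH.Bal

/-- For every measurable gauge `φ` with `φ x / x ^ 2 → ∞` as `x → 0`, `x ≠ 0`, there are a real Lévy
process without Gaussian part whose Lévy measure `μ` satisfies `∫ φ dμ = ∞` and
`∫ min 1 (|x| ^ β) μ(dx) = ∞` for every `β < 2`, and a closed thin set which is not polar for it; in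
particular Hunt's hypothesis (H) fails for this process. -/
theorem result : ∀ φ : ℝ → ℝ≥0∞, Measurable φ →
    Tendsto (fun x : ℝ => φ x / ENNReal.ofReal (x ^ 2)) (𝓝[≠] 0) (𝓝 ∞) →
    ∃ (Ω : Type) (_ : MeasurableSpace Ω) (P : Measure Ω) (X : ℝ≥0 → Ω → ℝ) (a : ℝ)
      (μ : Measure ℝ), IsProbabilityMeasure P ∧ IsLevyProcess P X ∧ HasLevyTriplet P X a 0 μ ∧
      ∫⁻ x, φ x ∂μ = ∞ ∧ (∀ β : ℝ, β < 2 → ∫⁻ x, ENNReal.ofReal (min 1 (|x| ^ β)) ∂μ = ∞) ∧
      (∃ A : Set ℝ, IsClosed A ∧ Thin P X A ∧ ¬ Polar P X A) ∧ ¬ HypothesisH P X := by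
  intro φ hφ hlim
  obtain ⟨Q, hQ⟩ := exists_seq hφ hlim
  exact ⟨Om, inferInstance, PP Q.par.r, Q.par.X, 1, Q.par.mu, inferInstance, Q.par.isLevy,
    Q.triplet, hQ, fun β h => Q.top_beta h,
    ⟨Q.dat.clk.A, Q.dat.clk.isClosed_A, Q.thin_A, Q.not_polar_A⟩, Q.not_H⟩

end Pool.Agent.Results.MP_ee1e43_pr.EveryGauge
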